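import Mathlib

/-! Jacobian matrices of systems of analytic functions and curves along which all but one of the
functions are constant. -/

set_option autoImplicit false
set_option linter.unusedSectionVars false

open Set Topology Filter Metric

namespace Pool.Agent.K1H33.Dim

variable {ι : Type*} [Fintype ι] [DecidableEq ι]
variable {E : Type*} [NormedAddCommGroup E] [NormedSpace ℂ E]

theorem det_updateRow_eq (M : Matrix ι ι ℂ) (i0 : ι) (r : ι → ℂ) :
    (M.updateRow i0 r).det = ∑ j, r j * M.adjugate j i0 := by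
  rw [Matrix.det_eq_sum_mul_adjugate_row (M.updateRow i0 r) i0]
  refine Finset.sum_congr rfl fun j _ => ?_
  rw [Matrix.adjugate_apply, Matrix.adjugate_apply, Matrix.updateRow_self]
  congr 2
  ext i k
  by_cases h : i = i0
  · subst h; simp
  · simp [Matrix.updateRow_ne h]

theorem det_row (M : Matrix ι ι ℂ) (i0 : ι) (r c : ι → ℂ)
    (h : M.mulVec c = Pi.single i0 1) :
    (∑ j, r j * c j) * M.det = (M.updateRow i0 r).det := by
  have h1 : M.adjugate.mulVec (M.mulVec c) = M.det • c := by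
    rw [Matrix.mulVec_mulVec, Matrix.adjugate_mul, Matrix.smul_mulVec, Matrix.one_mulVec]
  rw [h] at h1
  rw [det_updateRow_eq, Finset.sum_mul]
  refine Finset.sum_congr rfl fun j _ => ?_
  have h2 := congrFun h1 j
  simp only [Matrix.mulVec_single_one, Pi.smul_apply, smul_eq_mul, Matrix.col_apply] at h2
  rw [h2]; ring

/-- The Jacobian matrix. -/
noncomputable def jac (b : Module.Basis ι ℂ E) (Ψ : ι → E → ℂ) (x : E) : Matrix ι ι ℂ :=
  Matrix.of fun i j => fderiv ℂ (Ψ i) x (b j)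

theorem jac_update (b : Module.Basis ι ℂ E) (Ψ : ι → E → ℂ) (i0 : ι) (h : E → ℂ) (x : E) :
    jac b (Function.update Ψ i0 h) x =
      (jac b Ψ x).updateRow i0 (fun j => fderiv ℂ h x (b j)) := by
  ext i j
  by_cases hi : i = i0
  · subst hi; simp [jac]
  · simp [jac, Function.update_of_ne hi, Matrix.updateRow_ne hi]

theorem jac_det_analytic (b : Module.Basis ι ℂ E) {Ψ : ι → E → ℂ} {U : Set E}
    (h : ∀ i, AnalyticOnNhd ℂ (Ψ i) U) : AnalyticOnNhd ℂ (fun x => (jac b Ψ x).det) U := by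
  have h1 : ∀ i j, AnalyticOnNhd ℂ (fun x => fderiv ℂ (Ψ i) x (b j)) U := fun i j =>
    (ContinuousLinearMap.apply ℂ ℂ (b j)).comp_analyticOnNhd (h i).fderiv
  simp only [Matrix.det_apply]
  refine Finset.analyticOnNhd_fun_sum _ fun σ _ => ?_
  have h2 : AnalyticOnNhd ℂ (fun x => ∏ i, jac b Ψ x (σ i) i) U :=
    Finset.analyticOnNhd_fun_prod _ fun i _ => h1 (σ i) i
  have h3 : (fun x => Equiv.Perm.sign σ • ∏ i, jac b Ψ x (σ i) i) =
      fun x => ((Equiv.Perm.sign σ : ℤ) : ℂ) * ∏ i, jac b Ψ x (σ i) i := by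
    funext x
    rw [Units.smul_def, zsmul_eq_mul]
  rw [h3]
  exact analyticOnNhd_const.mul h2

theorem exists_inverse [FiniteDimensional ℂ E] (b : Module.Basis ι ℂ E) {Ψ : ι → E → ℂ} {U : Set E}
    (h : ∀ i, AnalyticOnNhd ℂ (Ψ i) U) {a : E} (ha : a ∈ U)
    (hdet : (jac b Ψ a).det ≠ 0) :
    ∃ φ : (ι → ℂ) → E, AnalyticAt ℂ φ (fun i => Ψ i a) ∧ φ (fun i => Ψ i a) = a ∧
      (∀ᶠ y in 𝓝 (fun i => Ψ i a), ∀ i, Ψ i (φ y) = y i) ∧
      (∀ᶠ x in 𝓝 a, φ (fun i => Ψ i x) = x) := by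
  have : CompleteSpace E := FiniteDimensional.complete ℂ E
  set Φ : E → (ι → ℂ) := fun x i => Ψ i x with hΦ
  have hA : AnalyticAt ℂ Φ a := by
    rw [hΦ]
    exact AnalyticAt.pi fun i => h i a ha
  have hd : HasFDerivAt Φ (fderiv ℂ Φ a) a := hA.differentiableAt.hasFDerivAt
  have hcomp : ∀ i v, fderiv ℂ Φ a v i = fderiv ℂ (Ψ i) a v := by
    intro i v
    have := (hasFDerivAt_pi'.1 hd) i
    rw [this.fderiv]
    rfl
  have hinj : Function.Injective (fderiv ℂ Φ a).toLinearMap := by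
    rw [← LinearMap.ker_eq_bot, LinearMap.ker_eq_bot']
    intro v hv
    have h1 : (jac b Ψ a).mulVec (b.repr v) = 0 := by
      funext i
      have h2 : fderiv ℂ (Ψ i) a v = 0 := by
        rw [← hcomp]
        have : fderiv ℂ Φ a v = 0 := hv
        rw [this]; rfl
      rw [← b.sum_repr v, map_sum] at h2
      simp only [Matrix.mulVec, dotProduct, jac, Matrix.of_apply, Pi.zero_apply]
      rw [← h2]
      refine Finset.sum_congr rfl fun j _ => ?_
      rw [map_smul, smul_eq_mul, mul_comm]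
    have h3 := Matrix.eq_zero_of_mulVec_eq_zero hdet h1
    have h4 : b.repr v = 0 := by
      ext j
      exact congrFun h3 j
    simpa using h4
  have hfin : Module.finrank ℂ E = Module.finrank ℂ (ι → ℂ) := by
    rw [Module.finrank_eq_card_basis b, Module.finrank_fintype_fun_eq_card]
  let L : E ≃ₗ[ℂ] (ι → ℂ) := LinearEquiv.ofInjectiveOfFinrankEq (fderiv ℂ Φ a).toLinearMap hinj hfin
  let L' : E ≃L[ℂ] (ι → ℂ) := L.toContinuousLinearEquiv
  have hL : (L' : E →L[ℂ] (ι → ℂ)) = fderiv ℂ Φ a := by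
    ext v i
    rfl
  have hf' : HasFDerivAt Φ (L' : E →L[ℂ] (ι → ℂ)) a := by rw [hL]; exact hd
  have hc : ContDiffAt ℂ (⊤ : WithTop ℕ∞) Φ a := hA.contDiffAt
  have hn : (⊤ : WithTop ℕ∞) ≠ 0 := by simp
  refine ⟨hc.localInverse hf' hn, ?_, ?_, ?_, ?_⟩
  · exact (hc.to_localInverse hf' hn).analyticAt
  · exact hc.localInverse_apply_image hf' hn
  · have := (hc.hasStrictFDerivAt' hf' hn).eventually_right_inverse
    filter_upwards [this] with y hy i
    exact congrFun hy i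
  · exact (hc.hasStrictFDerivAt' hf' hn).eventually_left_inverse

theorem exists_curve [FiniteDimensional ℂ E] (b : Module.Basis ι ℂ E) {Ψ : ι → E → ℂ} {U : Set E}
    (hU : IsOpen U) (h : ∀ i, AnalyticOnNhd ℂ (Ψ i) U) {a : E} (ha : a ∈ U)
    (hdet : (jac b Ψ a).det ≠ 0) (i0 : ι) :
    ∃ (γ : ℂ → E) (r : ℝ), 0 < r ∧ AnalyticOnNhd ℂ γ (ball 0 r) ∧ γ 0 = a ∧
      (∀ s ∈ ball (0 : ℂ) r, γ s ∈ U) ∧ (∀ s ∈ ball (0 : ℂ) r, Ψ i0 (γ s) = Ψ i0 a + s) ∧
      (∀ s ∈ ball (0 : ℂ) r, (jac b Ψ (γ s)).det ≠ 0) ∧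
      ∀ f : E → ℂ, AnalyticOnNhd ℂ f U → ∀ s ∈ ball (0 : ℂ) r,
        deriv (fun s => f (γ s)) s * (jac b Ψ (γ s)).det =
          (jac b (Function.update Ψ i0 f) (γ s)).det := by
  obtain ⟨φ, hφ, hφa, hφ1, -⟩ := exists_inverse b h ha hdet
  set y0 : ι → ℂ := fun i => Ψ i a with hy0
  let lin : ℂ → (ι → ℂ) := fun s => y0 + s • (Pi.single i0 1 : ι → ℂ)
  have hlin0 : lin 0 = y0 := by simp [lin]
  have hlinA : ∀ s, AnalyticAt ℂ lin s := fun s => by
    refine analyticAt_const.add (analyticAt_id.smul analyticAt_const)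
  let γ : ℂ → E := fun s => φ (lin s)
  have hγ0 : γ 0 = a := by simp only [γ, hlin0, hφa]
  have hφ' : AnalyticAt ℂ φ (lin 0) := by rw [hlin0]; exact hφ
  have hγA : AnalyticAt ℂ γ 0 := hφ'.comp (hlinA 0)
  have e1 : ∀ᶠ s in 𝓝 (0 : ℂ), AnalyticAt ℂ γ s := hγA.eventually_analyticAt
  have hcont : ContinuousAt γ 0 := hγA.continuousAt
  have hlc : Tendsto lin (𝓝 0) (𝓝 y0) := by
    have := (hlinA 0).continuousAt.tendsto
    rwa [hlin0] at this
  have e2 : ∀ᶠ s in 𝓝 (0 : ℂ), γ s ∈ U := by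
    apply hcont.eventually
    rw [hγ0]; exact hU.mem_nhds ha
  have e3 : ∀ᶠ s in 𝓝 (0 : ℂ), ∀ i, Ψ i (γ s) = lin s i := hlc.eventually hφ1
  have hdA := jac_det_analytic b h
  have e4 : ∀ᶠ s in 𝓝 (0 : ℂ), (jac b Ψ (γ s)).det ≠ 0 := by
    have h1 : ContinuousAt (fun x => (jac b Ψ x).det) (γ 0) := by
      rw [hγ0]; exact (hdA a ha).continuousAt
    have h2 : ContinuousAt (fun s => (jac b Ψ (γ s)).det) 0 :=
      ContinuousAt.comp (f := γ) (g := fun x => (jac b Ψ x).det) h1 hcont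
    apply h2.eventually_ne
    rw [hγ0]; exact hdet
  obtain ⟨r, hr, hball⟩ := Metric.eventually_nhds_iff_ball.1 (((e1.and e2).and e3).and e4)
  refine ⟨γ, r, hr, fun s hs => (hball s hs).1.1.1, hγ0, fun s hs => (hball s hs).1.1.2, ?_,
    fun s hs => (hball s hs).2, ?_⟩
  · intro s hs
    rw [(hball s hs).1.2 i0]
    simp [lin, hy0]
  · intro f hf s hs
    have hγs : HasDerivAt γ (deriv γ s) s := (hball s hs).1.1.1.differentiableAt.hasDerivAt
    have hchain : ∀ g : E → ℂ, AnalyticOnNhd ℂ g U →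
        HasDerivAt (fun s => g (γ s)) (∑ j, fderiv ℂ g (γ s) (b j) * b.repr (deriv γ s) j) s := by
      intro g hg
      have h1 : HasFDerivAt g (fderiv ℂ g (γ s)) (γ s) :=
        (hg _ (hball s hs).1.1.2).differentiableAt.hasFDerivAt
      have h2 := h1.comp_hasDerivAt s hγs
      have h3 : ∑ j, fderiv ℂ g (γ s) (b j) * b.repr (deriv γ s) j =
          fderiv ℂ g (γ s) (deriv γ s) := by
        conv_rhs => rw [← b.sum_repr (deriv γ s), map_sum]
        refine Finset.sum_congr rfl fun j _ => ?_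
        rw [map_smul, smul_eq_mul, mul_comm]
      rw [h3]
      exact h2
    have hM : (jac b Ψ (γ s)).mulVec (b.repr (deriv γ s)) = Pi.single i0 1 := by
      funext i
      have h1 := hchain (Ψ i) (h i)
      have h2 : HasDerivAt (fun s => Ψ i (γ s)) ((Pi.single i0 1 : ι → ℂ) i) s := by
        have h3 : (fun s => Ψ i (γ s)) =ᶠ[𝓝 s] fun s => lin s i := by
          filter_upwards [isOpen_ball.mem_nhds hs] with t ht
          exact (hball t ht).1.2 i
        refine HasDerivAt.congr_of_eventuallyEq ?_ h3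
        have h4 : HasDerivAt (fun s : ℂ => y0 i + s * (Pi.single i0 1 : ι → ℂ) i)
            (1 * (Pi.single i0 1 : ι → ℂ) i) s :=
          ((hasDerivAt_id s).mul_const _).const_add _
        rw [one_mul] at h4
        exact h4
      have h5 := h1.unique h2
      rw [← h5]
      simp [Matrix.mulVec, dotProduct, jac]
    rw [(hchain f hf).deriv, det_row _ i0 _ _ hM, jac_update]

end Pool.Agent.K1H33.Dim
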