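import Mathlib
import Pool.Agent.K1H33.Dim.Curve

/-! Analytic sets with discrete fibres have analytic charts. -/

set_option autoImplicit false
set_option linter.unusedSectionVars false

open Set Topology Filter Metric

namespace Pool.Agent.K1H33.Dim

variable {ι : Type*} [Fintype ι] [DecidableEq ι]
variable {E : Type*} [NormedAddCommGroup E] [NormedSpace ℂ E]

/-- The common zero set in `U` of the functions in `F`. -/
def zeroSet (U : Set E) (F : Set (E → ℂ)) : Set E := {x | x ∈ U ∧ ∀ f ∈ F, f x = 0}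

/-- `n` of the functions of the system `Ψ` vanish on `A` or belong to `H`, and the Jacobian
determinant does not vanish identically on `A`. -/
def Adm (b : Module.Basis ι ℂ E) (U A : Set E) (H : Set (E → ℂ)) (n : ℕ) : Prop :=
  ∃ S : Finset ι, S.card = n ∧ ∃ Ψ : ι → E → ℂ, (∀ i, AnalyticOnNhd ℂ (Ψ i) U) ∧
    (∀ i ∈ S, (∀ x ∈ A, Ψ i x = 0) ∨ Ψ i ∈ H) ∧ ∃ a ∈ A, (jac b Ψ a).det ≠ 0

theorem adm_zero [FiniteDimensional ℂ E] (b : Module.Basis ι ℂ E) (U A : Set E) (H : Set (E → ℂ))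
    (hA : A.Nonempty) : Adm b U A H 0 := by
  obtain ⟨a, ha⟩ := hA
  let L : ι → E →L[ℂ] ℂ := fun i => LinearMap.toContinuousLinearMap (b.coord i)
  refine ⟨∅, rfl, fun i => L i, fun i => (L i).analyticOnNhd _, by simp, a, ha, ?_⟩
  have : jac b (fun i => (L i : E → ℂ)) a = 1 := by
    ext i j
    simp only [jac, Matrix.of_apply, ContinuousLinearMap.fderiv, Matrix.one_apply]
    simp only [L, LinearMap.coe_toContinuousLinearMap', Module.Basis.coord_apply,
      Module.Basis.repr_self, Finsupp.single_apply]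
    by_cases h : i = j
    · simp [h]
    · simp [h, Ne.symm h]
  rw [this]
  simp

theorem main_chart [FiniteDimensional ℂ E] (b : Module.Basis ι ℂ E) {U : Set E} (hU : IsOpen U)
    {F H : Set (E → ℂ)} (hF : ∀ f ∈ F, AnalyticOnNhd ℂ f U) (hH : ∀ f ∈ H, AnalyticOnNhd ℂ f U)
    (hne : (zeroSet U F).Nonempty)
    (hiso : ∀ a ∈ zeroSet U F, ∀ᶠ x in 𝓝[≠] a, ¬ (x ∈ zeroSet U F ∧ ∀ f ∈ H, f x = f a)) :
    ∃ Ψ : ι → E → ℂ, (∀ i, AnalyticOnNhd ℂ (Ψ i) U) ∧
      (∀ i, (∀ x ∈ zeroSet U F, Ψ i x = 0) ∨ Ψ i ∈ H) ∧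
      ∃ a ∈ zeroSet U F, (jac b Ψ a).det ≠ 0 := by
  classical
  set A := zeroSet U F with hAdef
  set n := Nat.findGreatest (Adm b U A H) (Fintype.card ι) with hn
  have hP : Adm b U A H n := Nat.findGreatest_spec (Nat.zero_le _) (adm_zero b U A H hne)
  obtain ⟨S, hSn, Ψ, hΨ, hS, a, ha, hdet⟩ := hP
  by_cases hSu : S = Finset.univ
  · exact ⟨Ψ, hΨ, fun i => hS i (by rw [hSu]; exact Finset.mem_univ i), a, ha, hdet⟩
  exfalso
  obtain ⟨i0, hi0⟩ : ∃ i0, i0 ∉ S := by
    by_contra hcon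
    push Not at hcon
    exact hSu (Finset.eq_univ_iff_forall.2 hcon)
  have hupd : ∀ f : E → ℂ, AnalyticOnNhd ℂ f U →
      ∀ i, AnalyticOnNhd ℂ (Function.update Ψ i0 f i) U := by
    intro f hf i
    by_cases hi : i = i0
    · subst hi; simpa using hf
    · simpa [Function.update_of_ne hi] using hΨ i
  have hJ : ∀ f : E → ℂ, AnalyticOnNhd ℂ f U → ((∀ x ∈ A, f x = 0) ∨ f ∈ H) → ∀ x ∈ A,
      (jac b (Function.update Ψ i0 f) x).det = 0 := by
    intro f hf hf2 x hx
    by_contra hcon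
    have h1 : Adm b U A H (n + 1) := by
      refine ⟨insert i0 S, by rw [Finset.card_insert_of_notMem hi0, hSn],
        Function.update Ψ i0 f, hupd f hf, ?_, x, hx, hcon⟩
      intro i hi
      by_cases hii : i = i0
      · subst hii; simpa using hf2
      · rw [Function.update_of_ne hii]
        exact hS i ((Finset.mem_insert.1 hi).resolve_left hii)
    have h2 : n + 1 ≤ Fintype.card ι := by
      have : (insert i0 S).card ≤ Fintype.card ι := Finset.card_le_univ _
      rwa [Finset.card_insert_of_notMem hi0, hSn] at this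
    have h3 := Nat.le_findGreatest h2 h1
    omega
  have hJA : ∀ f : E → ℂ, AnalyticOnNhd ℂ f U →
      AnalyticOnNhd ℂ (fun x => (jac b (Function.update Ψ i0 f) x).det) U := fun f hf =>
    jac_det_analytic b (hupd f hf)
  obtain ⟨γ, r, hr, hγA, hγ0, hγU, hγi, hγd, hγJ⟩ := exists_curve b hU hΨ ha.1 hdet i0
  have h0 : (0 : ℂ) ∈ ball (0 : ℂ) r := mem_ball_self hr
  have hcomp : ∀ f : E → ℂ, AnalyticOnNhd ℂ f U →
      AnalyticOnNhd ℂ (fun s => f (γ s)) (ball 0 r) := fun f hf s hs =>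
    (hf _ (hγU s hs)).comp (hγA s hs)
  have horder : ∀ m : ℕ, ∀ f : E → ℂ, AnalyticOnNhd ℂ f U → (∀ x ∈ A, f x = 0) →
      (m : ℕ∞) ≤ analyticOrderAt (fun s => f (γ s)) 0 := by
    intro m
    induction m with
    | zero => intro f _ _; simp
    | succ m ih =>
      intro f hf hfA
      have h1 := ih _ (hJA f hf) (hJ f hf (Or.inl hfA))
      have h2 : analyticOrderAt (fun s => (jac b (Function.update Ψ i0 f) (γ s)).det) 0 =
          analyticOrderAt (deriv (fun s => f (γ s)) * fun s => (jac b Ψ (γ s)).det) 0 := by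
        apply analyticOrderAt_congr
        filter_upwards [isOpen_ball.mem_nhds h0] with s hs
        exact (hγJ f hf s hs).symm
      have h3 : AnalyticAt ℂ (deriv (fun s => f (γ s))) 0 := ((hcomp f hf) 0 h0).deriv
      have h4 : AnalyticAt ℂ (fun s => (jac b Ψ (γ s)).det) 0 :=
        hcomp _ (jac_det_analytic b hΨ) 0 h0
      have h5 : analyticOrderAt (fun s => (jac b Ψ (γ s)).det) 0 = 0 :=
        h4.analyticOrderAt_eq_zero.2 (hγd 0 h0)
      rw [h2, analyticOrderAt_mul h3 h4, h5, add_zero] at h1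
      have h6 := ((hcomp f hf) 0 h0).analyticOrderAt_deriv_add_one
      have h7 : (fun s => f (γ s) - f (γ 0)) = fun s => f (γ s) := by
        funext s
        rw [hγ0, hfA a ha, sub_zero]
      rw [h7] at h6
      rw [← h6]
      push_cast
      gcongr
  have hzero : ∀ f : E → ℂ, AnalyticOnNhd ℂ f U → (∀ x ∈ A, f x = 0) →
      ∀ s ∈ ball (0 : ℂ) r, f (γ s) = 0 := by
    intro f hf hfA s hs
    have h1 : analyticOrderAt (fun s => f (γ s)) 0 = ⊤ :=
      ENat.eq_top_iff_forall_ge.2 fun m => horder m f hf hfA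
    rw [analyticOrderAt_eq_top] at h1
    exact (hcomp f hf).eqOn_zero_of_preconnected_of_eventuallyEq_zero
      (convex_ball 0 r).isPreconnected h0 h1 hs
  have hγmem : ∀ s ∈ ball (0 : ℂ) r, γ s ∈ A := fun s hs =>
    ⟨hγU s hs, fun f hf => hzero f (hF f hf) (fun x hx => hx.2 f hf) s hs⟩
  have hconst : ∀ f ∈ H, ∀ s ∈ ball (0 : ℂ) r, f (γ s) = f a := by
    intro f hf s hs
    have h1 : (ball (0 : ℂ) r).EqOn (deriv (fun s => f (γ s))) 0 := by
      intro t ht
      have h2 := hγJ f (hH f hf) t ht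
      rw [hJ f (hH f hf) (Or.inr hf) _ (hγmem t ht)] at h2
      exact (mul_eq_zero.1 h2).resolve_right (hγd t ht)
    have h3 := isOpen_ball.is_const_of_deriv_eq_zero (convex_ball (0 : ℂ) r).isPreconnected
      (hcomp f (hH f hf)).differentiableOn h1 hs h0
    rw [h3, hγ0]
  have hcont : Tendsto γ (𝓝[≠] 0) (𝓝[≠] a) := by
    have h1 : Tendsto γ (𝓝 0) (𝓝 a) := by
      have := (hγA 0 h0).continuousAt.tendsto
      rwa [hγ0] at this
    refine tendsto_nhdsWithin_iff.2 ⟨h1.mono_left nhdsWithin_le_nhds, ?_⟩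
    filter_upwards [mem_nhdsWithin_of_mem_nhds (isOpen_ball.mem_nhds h0), self_mem_nhdsWithin]
      with s hs hs0
    intro hcon
    have h2 := hγi s hs
    rw [mem_singleton_iff] at hcon
    rw [hcon] at h2
    have h3 : s = 0 := by
      have : Ψ i0 a + 0 = Ψ i0 a + s := by rw [add_zero]; exact h2
      exact (add_left_cancel this).symm
    exact hs0 h3
  have hev := hcont.eventually (hiso a ha)
  have hev2 : ∀ᶠ s in 𝓝[≠] (0 : ℂ), False := by
    filter_upwards [hev, mem_nhdsWithin_of_mem_nhds (isOpen_ball.mem_nhds h0)] with s hs hs2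
    exact hs ⟨hγmem s hs2, fun f hf => hconst f hf s hs2⟩
  rw [eventually_false_iff_eq_bot] at hev2
  exact (NormedField.nhdsNE_neBot (0 : ℂ)).ne hev2

end Pool.Agent.K1H33.Dim
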