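import Mathlib

/-! Points of a composed correspondence which are not isolated in their fibre. -/

set_option autoImplicit false

open Set Topology Filter

namespace Pool.Agent.K1H33.Dim

variable {X : Type*} [TopologicalSpace X]

/-- The points of `Γ` which are not isolated in their fibre for the second projection. -/
def nonIso (Γ : Set (X × X)) : Set (X × X) :=
  {q | q ∈ Γ ∧ ∃ᶠ x in 𝓝[≠] q.1, (x, q.2) ∈ Γ}

/-- The composition of correspondences. -/
def comp (P Q : Set (X × X)) : Set (X × X) :=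
  {q | ∃ z, (q.1, z) ∈ P ∧ (z, q.2) ∈ Q}

theorem comp_closed [CompactSpace X] [T2Space X] {P Q : Set (X × X)} (hP : IsClosed P)
    (hQ : IsClosed Q) : IsClosed (comp P Q) := by
  have h1 : IsClosed {t : X × X × X | (t.1, t.2.1) ∈ P ∧ (t.2.1, t.2.2) ∈ Q} := by
    refine IsClosed.inter ?_ ?_
    · exact hP.preimage (f := fun t : X × X × X => (t.1, t.2.1)) (by fun_prop)
    · exact hQ.preimage (f := fun t : X × X × X => (t.2.1, t.2.2)) (by fun_prop)
  have h2 : comp P Q = (fun t : X × X × X => (t.1, t.2.2)) ''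
      {t : X × X × X | (t.1, t.2.1) ∈ P ∧ (t.2.1, t.2.2) ∈ Q} := by
    ext ⟨x, y⟩
    constructor
    · rintro ⟨z, h3, h4⟩
      exact ⟨(x, z, y), ⟨h3, h4⟩, rfl⟩
    · rintro ⟨⟨x', z, y'⟩, ⟨h3, h4⟩, h5⟩
      simp only [Prod.mk.injEq] at h5
      obtain ⟨rfl, rfl⟩ := h5
      exact ⟨z, h3, h4⟩
  rw [h2]
  exact (h1.isCompact.image (by fun_prop)).isClosed

theorem nonIso_comp [CompactSpace X] {Γ P Q : Set (X × X)} (hP : IsClosed P) (hQ : IsClosed Q)
    (h : Γ ⊆ comp P Q) : nonIso Γ ⊆ comp (nonIso P) Q ∪ comp P (nonIso Q) := by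
  rintro ⟨x, y⟩ ⟨-, hfr⟩
  simp only at hfr
  have hm : ∀ u, ∃ z, (u, y) ∈ Γ → (u, z) ∈ P ∧ (z, y) ∈ Q := by
    intro u
    by_cases hu : (u, y) ∈ Γ
    · obtain ⟨z, hz⟩ := h hu
      exact ⟨z, fun _ => hz⟩
    · exact ⟨u, fun h => absurd h hu⟩
  choose m hm using hm
  have hne : (𝓝[≠] x ⊓ 𝓟 {u | (u, y) ∈ Γ}).NeBot := by
    rw [← frequently_mem_iff_neBot]
    exact hfr
  let 𝓤 : Ultrafilter X := Ultrafilter.of (𝓝[≠] x ⊓ 𝓟 {u | (u, y) ∈ Γ})
  have h𝓤 : (𝓤 : Filter X) ≤ 𝓝[≠] x ⊓ 𝓟 {u | (u, y) ∈ Γ} := Ultrafilter.of_le _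
  have h1 : (𝓤 : Filter X) ≤ 𝓝[≠] x := h𝓤.trans inf_le_left
  have h2 : ∀ᶠ u in (𝓤 : Filter X), (u, y) ∈ Γ := (h𝓤.trans inf_le_right) (mem_principal_self _)
  obtain ⟨z, -, hz⟩ := isCompact_univ.ultrafilter_le_nhds (𝓤.map m) (by simp)
  have hz' : Tendsto m (𝓤 : Filter X) (𝓝 z) := hz
  have hx' : Tendsto id (𝓤 : Filter X) (𝓝 x) := h1.trans nhdsWithin_le_nhds
  have hPz : (x, z) ∈ P := by
    refine hP.mem_of_tendsto (hx'.prodMk_nhds hz') ?_
    filter_upwards [h2] with u hu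
    exact (hm u hu).1
  have hQz : (z, y) ∈ Q := by
    refine hQ.mem_of_tendsto (hz'.prodMk_nhds tendsto_const_nhds) ?_
    filter_upwards [h2] with u hu
    exact (hm u hu).2
  rcases 𝓤.em (fun u => m u = z) with h3 | h3
  · left
    refine ⟨z, ⟨hPz, ?_⟩, hQz⟩
    have h4 : ∀ᶠ u in (𝓤 : Filter X), (u, z) ∈ P := by
      filter_upwards [h2, h3] with u hu hu3
      rw [← hu3]; exact (hm u hu).1
    exact h4.frequently.filter_mono h1
  · right
    refine ⟨z, hPz, hQz, ?_⟩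
    have h4 : ∀ᶠ u in (𝓤 : Filter X), (m u, y) ∈ Q := by
      filter_upwards [h2] with u hu
      exact (hm u hu).2
    have h5 : Tendsto m (𝓤 : Filter X) (𝓝[≠] z) :=
      tendsto_nhdsWithin_iff.2 ⟨hz', h3⟩
    exact h5.frequently h4.frequently

theorem crit_comp [CompactSpace X] [T2Space X] {Γ P Q : Set (X × X)} (hP : IsClosed P)
    (hQ : IsClosed Q) (h : Γ ⊆ comp P Q) :
    closure (nonIso Γ) ⊆ comp (closure (nonIso P)) Q ∪ comp P (closure (nonIso Q)) := by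
  refine closure_minimal ((nonIso_comp hP hQ h).trans ?_)
    ((comp_closed isClosed_closure hQ).union (comp_closed hP isClosed_closure))
  refine union_subset_union ?_ ?_
  · rintro q ⟨z, h1, h2⟩
    exact ⟨z, subset_closure h1, h2⟩
  · rintro q ⟨z, h1, h2⟩
    exact ⟨z, h1, subset_closure h2⟩

end Pool.Agent.K1H33.Dim
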