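import Mathlib
import Pool.Agent.K1H33.Dim.Chart

/-! Hausdorff dimension of analytic sets which have discrete fibres over a set. -/

set_option autoImplicit false
set_option linter.unusedSectionVars false

open Set Topology Filter Metric
open scoped ENNReal

namespace Pool.Agent.K1H33.Dim

theorem dimH_le_of_locally {X : Type*} [EMetricSpace X] [SecondCountableTopology X] {s : Set X}
    {r : ℝ≥0∞} (h : ∀ x ∈ s, ∃ t ∈ 𝓝[s] x, dimH t ≤ r) : dimH s ≤ r := by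
  by_contra hcon
  push Not at hcon
  obtain ⟨x, hx, hx2⟩ := exists_mem_nhdsWithin_lt_dimH_of_lt_dimH hcon
  obtain ⟨t, ht, htr⟩ := h x hx
  exact absurd (hx2 t ht) (not_lt.2 htr)

variable {E : Type*} [NormedAddCommGroup E] [NormedSpace ℂ E]
variable {G : Type*} [NormedAddCommGroup G] [NormedSpace ℂ G]

theorem local_bound [FiniteDimensional ℂ E] {ι : Type*} [Fintype ι] [DecidableEq ι]
    (b : Module.Basis ι ℂ E) {U A : Set E} {g : E → G} {Ψ : ι → E → ℂ}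
    (hΨ : ∀ i, AnalyticOnNhd ℂ (Ψ i) U)
    (hT : ∀ i, ∃ l : G →L[ℂ] ℂ, ∀ x ∈ A, Ψ i x = l (g x))
    {a : E} (ha : a ∈ U) (hdet : (jac b Ψ a).det ≠ 0) (Z : Set G) :
    ∃ V ∈ 𝓝 a, dimH (A ∩ g ⁻¹' Z ∩ V) ≤ dimH Z := by
  obtain ⟨φ, hφ, hφa, hφ1, hφ2⟩ := exists_inverse b hΨ ha hdet
  choose l hl using hT
  let T : G →L[ℂ] (ι → ℂ) := ContinuousLinearMap.pi l
  obtain ⟨K, W, hW, hLip⟩ := (hφ.contDiffAt (n := 1)).exists_lipschitzOnWith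
  have hcont : ContinuousAt (fun x i => Ψ i x) a :=
    continuousAt_pi.2 fun i => (hΨ i a ha).continuousAt
  have hV : {x | φ (fun i => Ψ i x) = x} ∩ (fun x i => Ψ i x) ⁻¹' W ∈ 𝓝 a :=
    inter_mem hφ2 (hcont hW)
  refine ⟨_, hV, ?_⟩
  have hsub : A ∩ g ⁻¹' Z ∩ ({x | φ (fun i => Ψ i x) = x} ∩ (fun x i => Ψ i x) ⁻¹' W) ⊆
      φ '' (T '' Z ∩ W) := by
    rintro x ⟨⟨hxA, hxZ⟩, hx1, hx2⟩
    refine ⟨fun i => Ψ i x, ⟨⟨g x, hxZ, ?_⟩, hx2⟩, hx1⟩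
    funext i
    simp only [T, ContinuousLinearMap.coe_pi']
    exact (hl i x hxA).symm
  calc dimH _ ≤ dimH (φ '' (T '' Z ∩ W)) := dimH_mono hsub
    _ ≤ dimH (T '' Z ∩ W) := (hLip.mono inter_subset_right).dimH_image_le
    _ ≤ dimH (T '' Z) := dimH_mono inter_subset_left
    _ ≤ dimH Z := T.lipschitz.dimH_image_le Z

/-- **Hausdorff dimension of an analytic set with discrete fibres over `Z`.** -/
theorem dimH_fibre [FiniteDimensional ℂ E] {U : Set E} (hU : IsOpen U) {F : Set (E → ℂ)}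
    (hF : ∀ f ∈ F, AnalyticOnNhd ℂ f U) {g : E → G} (hg : AnalyticOnNhd ℂ g U)
    (hiso : ∀ a ∈ zeroSet U F, ∀ᶠ x in 𝓝[≠] a, ¬ (x ∈ zeroSet U F ∧ g x = g a)) (Z : Set G) :
    dimH (zeroSet U F ∩ g ⁻¹' Z) ≤ dimH Z := by
  classical
  have : ProperSpace E := FiniteDimensional.proper ℂ E
  have : SecondCountableTopology E := inferInstance
  let b := Module.finBasis ℂ E
  let F' : Set (E → ℂ) := {f | AnalyticOnNhd ℂ f U ∧
    dimH (zeroSet U F ∩ g ⁻¹' Z ∩ {x | f x ≠ 0}) ≤ dimH Z}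
  have hFF' : F ⊆ F' := by
    intro f hf
    refine ⟨hF f hf, ?_⟩
    have : zeroSet U F ∩ g ⁻¹' Z ∩ {x | f x ≠ 0} = ∅ := by
      rw [eq_empty_iff_forall_notMem]
      rintro x ⟨⟨hx, -⟩, hx2⟩
      exact hx2 (hx.2 f hf)
    rw [this]
    simp
  have hZF : zeroSet U F' ⊆ zeroSet U F := fun x hx => ⟨hx.1, fun f hf => hx.2 f (hFF' hf)⟩
  have hrest : dimH ((zeroSet U F \ zeroSet U F') ∩ g ⁻¹' Z) ≤ dimH Z := by
    apply dimH_le_of_locally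
    rintro x ⟨⟨hx, hx2⟩, hx3⟩
    have : ∃ f ∈ F', f x ≠ 0 := by
      by_contra hcon
      push Not at hcon
      exact hx2 ⟨hx.1, hcon⟩
    obtain ⟨f, hf, hfx⟩ := this
    refine ⟨zeroSet U F ∩ g ⁻¹' Z ∩ {x | f x ≠ 0}, ?_, hf.2⟩
    have h1 : {x | f x ≠ 0} ∈ 𝓝 x := (hf.1 x hx.1).continuousAt.eventually_ne hfx
    rw [mem_nhdsWithin_iff_exists_mem_nhds_inter]
    refine ⟨_, h1, ?_⟩
    rintro y ⟨hy1, ⟨hy2, -⟩, hy3⟩
    exact ⟨⟨hy2, hy3⟩, hy1⟩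
  by_cases hne : (zeroSet U F').Nonempty
  · exfalso
    let H : Set (E → ℂ) := {h | ∃ l : G →L[ℂ] ℂ, h = fun x => l (g x)}
    have hH : ∀ f ∈ H, AnalyticOnNhd ℂ f U := by
      rintro f ⟨l, rfl⟩
      exact l.comp_analyticOnNhd hg
    have hiso' : ∀ a ∈ zeroSet U F', ∀ᶠ x in 𝓝[≠] a,
        ¬ (x ∈ zeroSet U F' ∧ ∀ f ∈ H, f x = f a) := by
      intro a ha
      filter_upwards [hiso a (hZF ha)] with x hx
      rintro ⟨h1, h2⟩
      refine hx ⟨hZF h1, ?_⟩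
      refine (SeparatingDual.eq_iff_forall_dual_eq (R := ℂ)).2 fun l => ?_
      exact h2 (fun x => l (g x)) ⟨l, rfl⟩
    obtain ⟨Ψ, hΨ, hΨ2, a, ha, hdet⟩ := main_chart b hU (fun f hf => hf.1) hH hne hiso'
    have hT : ∀ i, ∃ l : G →L[ℂ] ℂ, ∀ x ∈ zeroSet U F', Ψ i x = l (g x) := by
      intro i
      rcases hΨ2 i with h | ⟨l, hl⟩
      · exact ⟨0, fun x hx => by simpa using h x hx⟩
      · exact ⟨l, fun x _ => by rw [hl]⟩
    have hδA := jac_det_analytic b hΨ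
    have hδ : (fun x => (jac b Ψ x).det) ∈ F' := by
      refine ⟨hδA, ?_⟩
      have hsub : zeroSet U F ∩ g ⁻¹' Z ∩ {x | (jac b Ψ x).det ≠ 0} ⊆
          ((zeroSet U F \ zeroSet U F') ∩ g ⁻¹' Z) ∪
            (zeroSet U F' ∩ g ⁻¹' Z ∩ {x | (jac b Ψ x).det ≠ 0}) := by
        rintro x ⟨⟨hx1, hx2⟩, hx3⟩
        by_cases hx : x ∈ zeroSet U F'
        · exact Or.inr ⟨⟨hx, hx2⟩, hx3⟩
        · exact Or.inl ⟨⟨hx1, hx⟩, hx2⟩
      refine (dimH_mono hsub).trans ?_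
      rw [dimH_union]
      refine max_le hrest ?_
      apply dimH_le_of_locally
      rintro x ⟨⟨hx1, hx2⟩, hx3⟩
      obtain ⟨V, hV, hVd⟩ := local_bound b hΨ hT hx1.1 hx3 Z
      refine ⟨zeroSet U F' ∩ g ⁻¹' Z ∩ V, ?_, hVd⟩
      rw [mem_nhdsWithin_iff_exists_mem_nhds_inter]
      refine ⟨V, hV, ?_⟩
      rintro y ⟨hy1, hy2, -⟩
      exact ⟨hy2, hy1⟩
    exact hdet (ha.2 _ hδ)
  · rw [not_nonempty_iff_eq_empty] at hne
    rw [hne, sdiff_empty] at hrest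
    exact hrest

end Pool.Agent.K1H33.Dim
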