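import Mathlib
import Pool.Agent.K1H33.Dim.Local
import Pool.Agent.K1H33.Dim.Corr

/-! Dimension of the preimage of a set under an analytic correspondence with discrete fibres. -/

set_option autoImplicit false
set_option linter.unusedSectionVars false

open Set Topology Filter
open scoped ENNReal Manifold ContDiff

namespace Pool.Agent.K1H33.Dim

variable {E : Type*} [NormedAddCommGroup E] [NormedSpace ℂ E]
variable {X : Type*} [TopologicalSpace X] [ChartedSpace E X]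

/-- In every chart the Hausdorff dimension of `A` is at most `d`. -/
def DimLE (E : Type*) [NormedAddCommGroup E] [NormedSpace ℂ E] {X : Type*} [TopologicalSpace X]
    [ChartedSpace E X] (d : ℝ≥0∞) (A : Set X) : Prop :=
  ∀ x₀ : X, dimH (chartAt E x₀ '' (A ∩ (chartAt E x₀).source)) ≤ d

theorem DimLE.mono {d : ℝ≥0∞} {A B : Set X} (h : DimLE E d B) (hAB : A ⊆ B) : DimLE E d A :=
  fun x₀ => (dimH_mono (image_mono (inter_subset_inter_left _ hAB))).trans (h x₀)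

theorem DimLE.union {d : ℝ≥0∞} {A B : Set X} (hA : DimLE E d A) (hB : DimLE E d B) :
    DimLE E d (A ∪ B) := by
  intro x₀
  rw [union_inter_distrib_right, image_union, dimH_union]
  exact max_le (hA x₀) (hB x₀)

/-- `A` is an analytic subset. -/
def IsAn {E' H : Type*} [NormedAddCommGroup E'] [NormedSpace ℂ E'] [TopologicalSpace H]
    (I : ModelWithCorners ℂ E' H) {M : Type*} [TopologicalSpace M] [ChartedSpace H M]
    (A : Set M) : Prop :=
  ∀ x : M, ∃ U : Set M, IsOpen U ∧ x ∈ U ∧ ∃ (m : ℕ) (F : Fin m → M → ℂ),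
    (∀ i, ContMDiffOn I 𝓘(ℂ, ℂ) ω (F i) U) ∧ A ∩ U = {y | y ∈ U ∧ ∀ i, F i y = 0}

/-- an analytic function on an open set of `X × X`, in charts -/
theorem analytic_in_chart [IsManifold 𝓘(ℂ, E) ω X] {U : Set (X × X)} (hU : IsOpen U)
    {f : X × X → ℂ} (hf : ContMDiffOn ((𝓘(ℂ, E)).prod 𝓘(ℂ, E)) 𝓘(ℂ, ℂ) ω f U) (x₀ x₁ : X) :
    AnalyticOnNhd ℂ (fun p : E × E => f ((chartAt E x₀).symm p.1, (chartAt E x₁).symm p.2))
      {p | p.1 ∈ (chartAt E x₀).target ∧ p.2 ∈ (chartAt E x₁).target ∧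
        ((chartAt E x₀).symm p.1, (chartAt E x₁).symm p.2) ∈ U} := by
  have hopen : IsOpen {p : E × E | p.1 ∈ (chartAt E x₀).target ∧ p.2 ∈ (chartAt E x₁).target ∧
        ((chartAt E x₀).symm p.1, (chartAt E x₁).symm p.2) ∈ U} := by
    have h1 := ((chartAt E x₀).symm.prod (chartAt E x₁).symm).isOpen_inter_preimage hU
    convert h1 using 1
    ext p
    simp [and_assoc]
  have h1 := (contMDiffOn_iff.1 hf).2 (x₀, x₁) (0 : ℂ)
  rw [← IsOpen.analyticOn_iff_analyticOnNhd hopen, ← contDiffOn_omega_iff_analyticOn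
    hopen.uniqueDiffOn]
  refine (h1.mono ?_).congr ?_
  · rintro p ⟨hp1, hp2, hp3⟩
    refine ⟨?_, ?_, ?_⟩
    · simp only [mfld_simps]
      exact ⟨hp1, hp2⟩
    · exact hp3
    · simp only [mfld_simps]
  · rintro p ⟨hp1, hp2, hp3⟩
    simp only [mfld_simps]
    rfl

/-- **The dimension of the part with discrete fibres over `Z` of an analytic correspondence.** -/
theorem dim_step [FiniteDimensional ℂ E] [CompactSpace X] [IsManifold 𝓘(ℂ, E) ω X]
    {Γ C : Set (X × X)} (hΓ : IsAn ((𝓘(ℂ, E)).prod 𝓘(ℂ, E)) Γ) (hC : IsClosed C)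
    (hiso : ∀ q ∈ Γ, q ∉ C → ∀ᶠ x in 𝓝[≠] q.1, (x, q.2) ∉ Γ) {Z : Set X} {d : ℝ≥0∞}
    (hZ : DimLE E d Z) : DimLE E d (Prod.fst '' {q | q ∈ Γ ∧ q ∉ C ∧ q.2 ∈ Z}) := by
  have : ProperSpace E := FiniteDimensional.proper ℂ E
  have : SecondCountableTopology E := inferInstance
  have : SecondCountableTopology X := ChartedSpace.secondCountable_of_sigmaCompact E X
  intro x₀
  set e := chartAt E x₀ with he
  set W : Set (X × X) := {q | (q ∈ Γ ∧ q ∉ C ∧ q.2 ∈ Z) ∧ q.1 ∈ e.source} with hW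
  have hloc : ∀ w ∈ W, ∃ O ∈ 𝓝[W] w, dimH (e '' (Prod.fst '' (W ∩ O))) ≤ d := by
    rintro w ⟨⟨hwΓ, hwC, hwZ⟩, hwe⟩
    obtain ⟨U, hU, hwU, m, F, hF, hFU⟩ := hΓ w
    set e₂ := chartAt E w.2 with he₂
    set V : Set (X × X) := U ∩ Cᶜ with hV
    have hVo : IsOpen V := hU.inter hC.isOpen_compl
    set U' : Set (E × E) := {p | p.1 ∈ e.target ∧ p.2 ∈ e₂.target ∧
      (e.symm p.1, e₂.symm p.2) ∈ V} with hU'
    have hU'o : IsOpen U' := by
      have h1 := (e.symm.prod e₂.symm).isOpen_inter_preimage hVo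
      convert h1 using 1
      ext p
      simp [hU', and_assoc]
    let F' : Set (E × E → ℂ) := {f | ∃ i, f = fun p => F i (e.symm p.1, e₂.symm p.2)}
    have hF' : ∀ f ∈ F', AnalyticOnNhd ℂ f U' := by
      rintro f ⟨i, rfl⟩
      exact (analytic_in_chart hU (hF i) x₀ w.2).mono fun p hp => ⟨hp.1, hp.2.1, hp.2.2.1⟩
    have hzs : ∀ p : E × E, p ∈ zeroSet U' F' ↔ p.1 ∈ e.target ∧ p.2 ∈ e₂.target ∧
        (e.symm p.1, e₂.symm p.2) ∈ V ∧ (e.symm p.1, e₂.symm p.2) ∈ Γ := by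
      intro p
      constructor
      · rintro ⟨⟨h1, h2, h3⟩, h4⟩
        refine ⟨h1, h2, h3, ?_⟩
        have h5 : (e.symm p.1, e₂.symm p.2) ∈ Γ ∩ U := by
          rw [hFU]
          exact ⟨h3.1, fun i => h4 _ ⟨i, rfl⟩⟩
        exact h5.1
      · rintro ⟨h1, h2, h3, h4⟩
        refine ⟨⟨h1, h2, h3⟩, ?_⟩
        rintro f ⟨i, rfl⟩
        have h5 : (e.symm p.1, e₂.symm p.2) ∈ Γ ∩ U := ⟨h4, h3.1⟩
        rw [hFU] at h5
        exact h5.2 i
    have hiso' : ∀ a ∈ zeroSet U' F', ∀ᶠ x in 𝓝[≠] a,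
        ¬ (x ∈ zeroSet U' F' ∧ Prod.snd x = Prod.snd a) := by
      intro a ha
      rw [hzs] at ha
      obtain ⟨ha1, ha2, ha3, ha4⟩ := ha
      have h1 := hiso _ ha4 ha3.2
      simp only at h1
      rw [eventually_nhdsWithin_iff] at h1 ⊢
      have h2 : Tendsto (fun p : E × E => e.symm p.1) (𝓝 a) (𝓝 (e.symm a.1)) :=
        (e.continuousAt_symm ha1).tendsto.comp continuous_fst.continuousAt.tendsto
      filter_upwards [h2.eventually h1] with x hx hxa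
      rintro ⟨hx1, hx2⟩
      rw [hzs] at hx1
      obtain ⟨hx1, hx3, hx4, hx5⟩ := hx1
      rw [hx2] at hx5
      refine hx ?_ hx5
      intro hcon
      rw [mem_singleton_iff] at hcon
      have h3 : x.1 = a.1 := e.symm.injOn (by simpa using hx1) (by simpa using ha1) hcon
      exact hxa (Prod.ext h3 hx2)
    have hmain := dimH_fibre (E := E × E) (G := E) hU'o hF' (g := Prod.snd)
      (fun x _ => analyticAt_snd) hiso' (e₂ '' (Z ∩ e₂.source))
    refine ⟨V ∩ (e.source ×ˢ e₂.source), ?_, ?_⟩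
    · apply mem_nhdsWithin_of_mem_nhds
      refine (hVo.inter (e.open_source.prod e₂.open_source)).mem_nhds ⟨⟨hwU, hwC⟩, hwe, ?_⟩
      exact mem_chart_source E w.2
    · have hsub : e '' (Prod.fst '' (W ∩ (V ∩ (e.source ×ˢ e₂.source)))) ⊆
          Prod.fst '' (zeroSet U' F' ∩ Prod.snd ⁻¹' (e₂ '' (Z ∩ e₂.source))) := by
        rintro _ ⟨_, ⟨q, ⟨⟨⟨hq1, hq2, hq3⟩, hq4⟩, hq5, hq6, hq7⟩, rfl⟩, rfl⟩
        have hq8 : e.symm (e q.1) = q.1 := e.left_inv hq6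
        have hq9 : e₂.symm (e₂ q.2) = q.2 := e₂.left_inv hq7
        refine ⟨(e q.1, e₂ q.2), ⟨?_, ⟨q.2, ⟨hq3, hq7⟩, rfl⟩⟩, rfl⟩
        rw [hzs]
        refine ⟨e.map_source hq6, e₂.map_source hq7, ?_, ?_⟩
        · simp only [hq8, hq9]; exact hq5
        · simp only [hq8, hq9]; exact hq1
      exact (dimH_mono hsub).trans ((LipschitzWith.prod_fst.dimH_image_le _).trans
        (hmain.trans (hZ w.2)))
  choose! O hO hOd using hloc
  obtain ⟨t, htW, htc, htU⟩ := TopologicalSpace.countable_cover_nhdsWithin hO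
  have hcov : e '' ((Prod.fst '' {q | q ∈ Γ ∧ q ∉ C ∧ q.2 ∈ Z}) ∩ e.source) ⊆
      ⋃ w ∈ t, e '' (Prod.fst '' (W ∩ O w)) := by
    rintro _ ⟨_, ⟨⟨q, hq, rfl⟩, hqe⟩, rfl⟩
    have hqW : q ∈ W := ⟨hq, hqe⟩
    obtain ⟨w, hwt, hw⟩ := mem_iUnion₂.1 (htU hqW)
    exact mem_iUnion₂.2 ⟨w, hwt, q.1, ⟨q, ⟨hqW, hw⟩, rfl⟩, rfl⟩
  refine (dimH_mono hcov).trans ?_
  rw [dimH_bUnion htc]
  exact iSup₂_le fun w hw => hOd w (htW hw)

end Pool.Agent.K1H33.Dim
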